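import Pool.Agent.Helper46.T6.Stmts

set_option autoImplicit false

/-!
MP_2f9829_co, all degrees: modules L_ACTT (the form under the action) and L_ACTV (invariance of the
volume).
-/

open Finset MeasureTheory Filter Topology

namespace Pool.Agent.Helper11.T6L

open Pool.Agent.Helper15.T4 (IsPM PM cov IsMat nsq po)
open Pool.Agent.Helper15.T6 Pool.Agent.Helper46.T6

/-- Sum over functions of a product. -/
theorem psum {R ι : Type} [CommRing R] [Fintype ι] {J : Type} [Fintype J] [DecidableEq J]
    (f : J → ι → R) : ∑ a : J → ι, ∏ j, f j (a j) = ∏ j, ∑ i, f j i := by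
  rw [Finset.prod_univ_sum, Fintype.piFinset_univ]

/-- The form as a sum over all label functions. -/
theorem TJ_act {R : Type} [CommRing R] {d : ℕ} {J : Type} [Fintype J] [DecidableEq J]
    (A : J → Matrix (Fin d) (Fin d) R) (x : Fin d → (J → Fin d) → R) :
    TJ J (fun i => act A (x i)) = ∑ b : Fin d → J → Fin d, (∏ i, x i (b i)) *
      ∏ j, ((A j).submatrix id (fun i => b i j)).det := by
  unfold TJ act
  have e1 : ∀ π : J → Equiv.Perm (Fin d),
      ∏ i : Fin d, ∑ b : J → Fin d, (∏ j, A j (π j i) (b j)) * x i b =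
        ∑ b : Fin d → J → Fin d, ∏ i, ((∏ j, A j (π j i) (b i j)) * x i (b i)) := by
    intro π
    rw [psum (fun i b => (∏ j, A j (π j i) (b j)) * x i b)]
  simp only [e1, Finset.mul_sum]
  rw [Finset.sum_comm]
  refine Finset.sum_congr rfl fun b _ => ?_
  have e2 : ∏ j, ((A j).submatrix id (fun i => b i j)).det =
      ∑ π : J → Equiv.Perm (Fin d), ∏ j, ((((Equiv.Perm.sign (π j) : ℤˣ) : ℤ) : R) *
        ∏ i, A j (π j i) (b i j)) := by
    rw [psum (fun j (σ : Equiv.Perm (Fin d)) => ((((Equiv.Perm.sign σ : ℤˣ) : ℤ) : R) *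
        ∏ i, A j (σ i) (b i j)))]
    refine Finset.prod_congr rfl fun j _ => ?_
    rw [Matrix.det_apply']
    rfl
  rw [e2, Finset.mul_sum]
  refine Finset.sum_congr rfl fun π _ => ?_
  rw [Finset.prod_mul_distrib, Finset.prod_mul_distrib, Finset.prod_comm]
  ring

theorem act_one {R : Type} [CommRing R] {d : ℕ} {J : Type} [Fintype J] [DecidableEq J]
    (x : (J → Fin d) → R) : act (fun _ : J => (1 : Matrix (Fin d) (Fin d) R)) x = x := by
  funext a
  unfold act
  rw [Finset.sum_eq_single a]
  · simp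
  · intro b _ hb
    obtain ⟨j, hj⟩ := Function.ne_iff.mp hb
    have h0 : (1 : Matrix (Fin d) (Fin d) R) (a j) (b j) = 0 :=
      Matrix.one_apply_ne (fun h => hj h.symm)
    have h1 : ∏ j, (1 : Matrix (Fin d) (Fin d) R) (a j) (b j) = 0 :=
      Finset.prod_eq_zero (Finset.mem_univ j) h0
    rw [h1, zero_mul]
  · intro h
    exact absurd (Finset.mem_univ a) h

/-- L_ACTT. -/
theorem st_ACTT : Helper46.T6.ST_ACTT := by
  intro R _ d J _ _ A x
  have h1 := TJ_act A x
  have h2 := TJ_act (fun _ : J => (1 : Matrix (Fin d) (Fin d) R)) x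
  simp only [act_one] at h2
  rw [h1, h2, Finset.mul_sum]
  refine Finset.sum_congr rfl fun b _ => ?_
  have h3 : ∀ j, ((A j).submatrix id (fun i => b i j)).det =
      (A j).det * ((1 : Matrix (Fin d) (Fin d) R).submatrix id (fun i => b i j)).det := by
    intro j
    rw [← Matrix.det_mul]
    congr 1
    ext i k
    simp [Matrix.mul_apply, Matrix.one_apply]
  simp only [h3, Finset.prod_mul_distrib]
  ring

/-! ### L_ACTV -/

/-- The Kronecker product of the matrices. -/
def kro {d : ℕ} {J : Type} [Fintype J] (A : J → Md d) : Matrix (J → Fin d) (J → Fin d) ℝ :=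
  fun a b => ∏ j, A j (a j) (b j)

theorem kro_mul_transpose {d : ℕ} {J : Type} [Fintype J] [DecidableEq J] (A : J → Md d)
    (hA : ∀ j, OD (A j)) : kro A * (kro A).transpose = 1 := by
  ext a c
  rw [Matrix.mul_apply]
  simp only [kro, Matrix.transpose_apply, ← Finset.prod_mul_distrib]
  rw [psum (fun j p => A j (a j) p * A j (c j) p)]
  have h : ∀ j, ∑ p, A j (a j) p * A j (c j) p = (1 : Md d) (a j) (c j) := by
    intro j
    have hj : A j * (A j).transpose = 1 := hA j
    rw [← hj, Matrix.mul_apply]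
    rfl
  simp only [h]
  by_cases hac : a = c
  · subst hac
    simp
  · obtain ⟨j, hj⟩ := Function.ne_iff.mp hac
    rw [Matrix.one_apply_ne hac]
    exact Finset.prod_eq_zero (Finset.mem_univ j) (Matrix.one_apply_ne hj)

theorem act_eq {d : ℕ} {J : Type} [Fintype J] [DecidableEq J] (A : J → Md d)
    (x : (J → Fin d) → ℝ) : act A x = (kro A).mulVec x := by
  ext a
  rfl

theorem actv_one (d : ℕ) (J : Type) [Fintype J] [DecidableEq J] (A : J → Md d)
    (F : ((J → Fin d) → ℝ) → ℝ) (hA : ∀ j, OD (A j)) : ∫ x, F (act A x) = ∫ x, F x := by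
  have h1 := kro_mul_transpose A hA
  have hd : (kro A).det * (kro A).det = 1 := by
    have h := congrArg Matrix.det h1
    rwa [Matrix.det_mul, Matrix.det_transpose, Matrix.det_one] at h
  have hd0 : (kro A).det ≠ 0 := by
    intro h
    rw [h] at hd
    norm_num at hd
  have habs : |(kro A).det| = 1 := by
    have h2 : |(kro A).det| * |(kro A).det| = 1 := by rw [abs_mul_abs_self, hd]
    nlinarith [abs_nonneg (kro A).det]
  have hmap := Real.map_matrix_volume_pi_eq_smul_volume_pi hd0
  rw [abs_inv, habs, inv_one, ENNReal.ofReal_one, one_smul] at hmap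
  have h2 : (kro A).transpose * kro A = 1 := mul_eq_one_comm.mp h1
  let e : ((J → Fin d) → ℝ) ≃ₗ[ℝ] ((J → Fin d) → ℝ) :=
    Matrix.toLin'OfInv h2 h1
  have he : ∀ x, e x = act A x := by
    intro x
    rw [act_eq]
    rfl
  have hcont : MeasurableEmbedding (fun x => act A x) := by
    have h3 := e.toContinuousLinearEquiv.toHomeomorph.measurableEmbedding
    have h4 : (fun x => act A x) = ⇑e.toContinuousLinearEquiv.toHomeomorph := by
      funext x
      exact (he x).symm
    rw [h4]
    exact h3
  have hmp : MeasurePreserving (fun x => act A x) volume volume := by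
    refine ⟨hcont.measurable, ?_⟩
    have h5 : (fun x => act A x) = ⇑(Matrix.toLin' (kro A)) := by
      funext x
      rw [act_eq, Matrix.toLin'_apply]
    rw [h5]
    exact hmap
  exact hmp.integral_comp hcont F

theorem actv_two (d : ℕ) (J : Type) [Fintype J] [DecidableEq J] (π : Equiv.Perm J)
    (F : ((J → Fin d) → ℝ) → ℝ) :
    ∫ x : (J → Fin d) → ℝ, F (fun a => x (a ∘ π)) = ∫ x, F x := by
  let σ : (J → Fin d) ≃ (J → Fin d) := Equiv.arrowCongr π (Equiv.refl _)
  have h1 := MeasureTheory.volume_measurePreserving_piCongrLeft (fun _ : J → Fin d => ℝ) σ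
  have h2 := h1.integral_comp' (g := F)
  rw [← h2]
  refine integral_congr_ae (Filter.Eventually.of_forall fun x => ?_)
  show F (fun a => x (a ∘ π)) = F (MeasurableEquiv.piCongrLeft (fun _ : J → Fin d => ℝ) σ x)
  congr 1
  funext a
  have h3 : a = σ (a ∘ π) := by
    funext j
    simp [σ]
  conv_rhs => rw [h3]
  rw [MeasurableEquiv.piCongrLeft_apply_apply]

/-- L_ACTV. -/
theorem st_ACTV : Helper46.T6.ST_ACTV :=
  ⟨fun d J _ _ A F hA => actv_one d J A F hA, fun d J _ _ π F => actv_two d J π F⟩

end Pool.Agent.Helper11.T6L
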