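import Pool.Agent.Helper15.T6.Stmts

set_option autoImplicit false

/-!
MP_2f9829_co, all degrees: module XZ (the total weight of the replica model is a power of `Zc`).
-/

open Finset MeasureTheory Filter Topology

namespace Pool.Agent.Helper11.T6

open Pool.Agent.Helper15.T6

/-- XZ. -/
theorem st_XZ : ST_XZ := by
  classical
  intro d J _ _ n M
  have h1 : ((Zc M : ℤ) : ℝ) = ∑ σ ∈ univ.filter (fun σ : HE n d → Fin d => Eqn M σ),
      ∏ v, ((epsd (fun i => σ (v, i)) : ℤ) : ℝ) := by
    unfold Zc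
    push_cast
    refine Finset.sum_congr ?_ fun _ _ => rfl
    ext σ
    simp
  have h2 : ((Zc M : ℤ) : ℝ) ^ (Fintype.card J) = ∏ _j : J, ((Zc M : ℤ) : ℝ) := by
    rw [Finset.prod_const, Finset.card_univ]
  rw [h2, h1, Finset.prod_univ_sum]
  unfold XW
  refine Finset.sum_nbij' (fun σ j h => σ h j) (fun p h j => p j h) ?_ ?_ ?_ ?_ ?_
  · intro σ hσ
    rw [Fintype.mem_piFinset]
    intro j
    rw [Finset.mem_filter]
    refine ⟨Finset.mem_univ _, fun h h' hm => ?_⟩
    have h3 := (Finset.mem_filter.mp hσ).2 h h' hm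
    exact congrFun h3 j
  · intro p hp
    rw [Finset.mem_filter]
    refine ⟨Finset.mem_univ _, fun h h' hm => ?_⟩
    funext j
    have h3 := (Finset.mem_filter.mp (Fintype.mem_piFinset.mp hp j)).2 h h' hm
    exact h3
  · intro σ _
    rfl
  · intro p _
    rfl
  · intro σ _
    unfold wJ
    rw [Finset.prod_comm]

end Pool.Agent.Helper11.T6
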